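import Pool.Agent.H6.FB.Stmts

/-!
# Project FB (MP_d89f1e_an): module INV
-/

set_option autoImplicit false

open Metric Set Filter Topology

namespace Pool.Agent.H6.FB

theorem inv_thm (hD : DIFStmt) (hO : OSGStmt) : INVStmt := by
  intro E _ _ _ f U hU hf hinj
  have hstrict : ∀ p ∈ U, ∃ f' : E ≃L[ℂ] E, HasStrictFDerivAt f (f' : E →L[ℂ] E) p := by
    intro p hp
    have h1 : Function.Injective (fderiv ℂ f p) := hO _ E E rfl rfl f U hU hf hinj p hp
    have h2 := (hD E E f U hU hf).2.2 p hp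
    let L : E ≃ₗ[ℂ] E := LinearEquiv.ofInjectiveEndo (fderiv ℂ f p : E →ₗ[ℂ] E) h1
    refine ⟨L.toContinuousLinearEquiv, ?_⟩
    have h3 : (L.toContinuousLinearEquiv : E →L[ℂ] E) = fderiv ℂ f p := by
      ext x
      rfl
    rw [h3]
    exact h2
  have hmap : ∀ p ∈ U, map f (𝓝 p) = 𝓝 (f p) := by
    intro p hp
    obtain ⟨f', hf'⟩ := hstrict p hp
    exact hf'.map_nhds_eq_of_equiv
  have hopen : ∀ V : Set E, IsOpen V → V ⊆ U → IsOpen (f '' V) := by
    intro V hV hVU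
    rw [isOpen_iff_mem_nhds]
    rintro _ ⟨x, hx, rfl⟩
    rw [← hmap x (hVU hx)]
    exact image_mem_map (hV.mem_nhds hx)
  refine ⟨hopen, ?_⟩
  intro g hg
  rintro _ ⟨p, hp, rfl⟩
  obtain ⟨f', hf'⟩ := hstrict p hp
  have hgp : g (f p) = p := hg p hp
  have hcont : ContinuousAt g (f p) := by
    rw [ContinuousAt, hgp, tendsto_def]
    intro V hV
    have h1 : f '' (V ∩ U) ∈ 𝓝 (f p) := by
      rw [← hmap p hp]
      exact image_mem_map (inter_mem hV (hU.mem_nhds hp))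
    refine mem_of_superset h1 ?_
    rintro _ ⟨x, ⟨hxV, hxU⟩, rfl⟩
    simpa only [mem_preimage, hg x hxU] using hxV
  have hfg : ∀ᶠ y in 𝓝 (f p), f (g y) = y := by
    refine mem_of_superset ((hopen U hU Subset.rfl).mem_nhds (mem_image_of_mem f hp)) ?_
    rintro _ ⟨x, hx, rfl⟩
    simp only [mem_ofPred_eq, hg x hx]
  have hfd : HasFDerivAt f (f' : E →L[ℂ] E) (g (f p)) := by
    rw [hgp]
    exact hf'.hasFDerivAt
  exact (HasFDerivAt.of_local_left_inverse hcont hfd hfg).differentiableAt.differentiableWithinAt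

end Pool.Agent.H6.FB
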