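import Pool.Agent.H6.FB.Stmts

/-!
# Project FB (MP_d89f1e_an): module RGE
-/

set_option autoImplicit false

open Metric Set Filter Topology

namespace Pool.Agent.H6.FB

theorem rge_thm (hD : DSCStmt) (hI : INVStmt) : RGEStmt := by
  intro E _ _ _ f d Ω hf hinj hbad hΩ hdΩ hR
  obtain ⟨hdc, hdd, hds, -⟩ := id hbad
  obtain ⟨δ, hδ, hH⟩ := hD E f d hf hinj hbad
  have hfd : DifferentiableOn ℂ f (ball (0 : E) 1) := hf.2
  obtain ⟨-, hg0⟩ := hI E f (ball (0 : E) 1) isOpen_ball hfd hinj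
  have hgi : ∀ z ∈ ball (0 : E) 1, Function.invFunOn f (ball (0 : E) 1) (f z) = z :=
    fun z hz => hinj.leftInvOn_invFunOn hz
  have hg := hg0 _ hgi
  set g : E → E := Function.invFunOn f (ball (0 : E) 1) with hgdef
  -- the compact set
  have hKc : IsCompact (d '' sphere (0 : ℂ) 1) :=
    (isCompact_sphere (0 : ℂ) 1).image_of_continuousOn (hdc.mono sphere_subset_closedBall)
  have hKs : d '' sphere (0 : ℂ) 1 ⊆ f '' ball (0 : E) 1 := by
    rintro _ ⟨ζ, hζ, rfl⟩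
    exact hds ζ hζ
  -- coordinates
  let b := Module.finBasis ℂ E
  let T : E ≃L[ℂ] (Fin (Module.finrank ℂ E) → ℂ) := b.equivFunL
  let S : (Fin (Module.finrank ℂ E) → ℂ) →L[ℂ] E := (T.symm : (Fin (Module.finrank ℂ E) → ℂ) →L[ℂ] E)
  have hε : 0 < δ / (2 * (‖S‖ + 1)) := by positivity
  have hap : ∀ i : Fin (Module.finrank ℂ E), ∃ h : E → ℂ, DifferentiableOn ℂ h Ω ∧
      ∀ z ∈ d '' sphere (0 : ℂ) 1, ‖T (g z) i - h z‖ < δ / (2 * (‖S‖ + 1)) := by
    intro i
    refine hR (fun z => T (g z) i) ?_ _ hKc hKs _ hε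
    have h1 : DifferentiableOn ℂ (fun z => T (g z)) (f '' ball (0 : E) 1) :=
      T.differentiable.comp_differentiableOn hg
    exact (differentiableOn_pi.1 h1) i
  choose h hhd hha using hap
  have hmap : MapsTo d (closedBall (0 : ℂ) 1) Ω := fun ζ hζ => hdΩ ζ hζ
  obtain ⟨ζ, hζ, w, hw, hfw, hle⟩ := hH (fun ζ => S (fun i => h i (d ζ))) (by
      refine S.continuous.comp_continuousOn ?_
      refine continuousOn_pi.2 fun i => ?_
      exact (hhd i).continuousOn.comp hdc hmap) (by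
      refine S.differentiable.comp_differentiableOn ?_
      refine differentiableOn_pi.2 fun i => ?_
      exact (hhd i).comp hdd (hmap.mono_left ball_subset_closedBall))
  have hgw : g (d ζ) = w := by
    rw [← hfw]
    exact hgi w hw
  have hTw : S (T w) = w := T.symm_apply_apply w
  have h2 : ‖S (fun i => h i (d ζ)) - w‖ ≤ ‖S‖ * (δ / (2 * (‖S‖ + 1))) := by
    calc ‖S (fun i => h i (d ζ)) - w‖ = ‖S ((fun i => h i (d ζ)) - T w)‖ := by
          rw [map_sub, hTw]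
      _ ≤ ‖S‖ * ‖(fun i => h i (d ζ)) - T w‖ := S.le_opNorm _
      _ ≤ ‖S‖ * (δ / (2 * (‖S‖ + 1))) := by
          refine mul_le_mul_of_nonneg_left ?_ (norm_nonneg _)
          refine (pi_norm_le_iff_of_nonneg hε.le).2 fun i => ?_
          have h3 := hha i (d ζ) (mem_image_of_mem d hζ)
          rw [hgw] at h3
          rw [Pi.sub_apply, norm_sub_rev]
          exact h3.le
  have h4 : ‖S‖ * (δ / (2 * (‖S‖ + 1))) < δ := by
    have h5 : 0 ≤ ‖S‖ := norm_nonneg _
    have h6 : ‖S‖ * (δ / (2 * (‖S‖ + 1))) = δ * (‖S‖ / (2 * (‖S‖ + 1))) := by ring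
    rw [h6]
    have h7 : ‖S‖ / (2 * (‖S‖ + 1)) < 1 := by
      rw [div_lt_one (by positivity)]
      linarith
    calc δ * (‖S‖ / (2 * (‖S‖ + 1))) < δ * 1 := mul_lt_mul_of_pos_left h7 hδ
      _ = δ := mul_one δ
  exact absurd (hle.trans h2) (not_le.2 h4)

end Pool.Agent.H6.FB
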