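import Pool.Agent.H6.FB.Stmts

/-!
# Project FB (MP_d89f1e_an): module ZER
-/

set_option autoImplicit false

open Metric Set Filter Topology

namespace Pool.Agent.H6.FB

theorem zer_thm : ZERStmt := by
  intro E _ _ _ g U z₀ v hU hg hz₀ hg0 hne ρ hρ
  have hline : ∀ z : E, Continuous fun ζ : ℂ => z + ζ • v := fun z => by fun_prop
  have hdl : ∀ z : E, Differentiable ℂ fun ζ : ℂ => z + ζ • v := fun z => by fun_prop
  have hUe : ∀ᶠ ζ in 𝓝 (0 : ℂ), z₀ + ζ • v ∈ U := by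
    have h1 : Tendsto (fun ζ : ℂ => z₀ + ζ • v) (𝓝 0) (𝓝 z₀) := by
      have := (hline z₀).tendsto 0
      simpa using this
    exact h1.eventually (hU.mem_nhds hz₀)
  -- the function on the line is analytic
  have han : AnalyticAt ℂ (fun ζ : ℂ => g (z₀ + ζ • v)) 0 := by
    have hop : IsOpen {ζ : ℂ | z₀ + ζ • v ∈ U} := hU.preimage (hline z₀)
    have hd : DifferentiableOn ℂ (fun ζ : ℂ => g (z₀ + ζ • v)) {ζ : ℂ | z₀ + ζ • v ∈ U} :=
      hg.comp (hdl z₀).differentiableOn fun ζ hζ => hζ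
    refine hd.analyticAt (hop.mem_nhds ?_)
    show z₀ + (0 : ℂ) • v ∈ U
    simpa using hz₀
  have hnz : ∀ᶠ ζ in 𝓝[≠] (0 : ℂ), g (z₀ + ζ • v) ≠ 0 := by
    rcases han.eventually_eq_zero_or_eventually_ne_zero with h | h
    · exact absurd h hne
    · exact h
  have hnz' : ∀ᶠ ζ in 𝓝 (0 : ℂ), ζ ≠ 0 → g (z₀ + ζ • v) ≠ 0 := by
    have := eventually_nhdsWithin_iff.1 hnz
    exact this
  obtain ⟨r₀, hr₀, hb⟩ := Metric.eventually_nhds_iff_ball.1 (hUe.and hnz')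
  set r : ℝ := min (r₀ / 2) (ρ / 2) with hrdef
  have hr : 0 < r := lt_min (by linarith) (by linarith)
  have hrr₀ : r < r₀ := lt_of_le_of_lt (min_le_left _ _) (by linarith)
  have hrρ : r < ρ := lt_of_le_of_lt (min_le_right _ _) (by linarith)
  have hin : ∀ ζ ∈ closedBall (0 : ℂ) r, z₀ + ζ • v ∈ U := fun ζ hζ =>
    (hb ζ (closedBall_subset_ball hrr₀ hζ)).1
  have hS : ∀ ζ ∈ sphere (0 : ℂ) r, g (z₀ + ζ • v) ≠ 0 := by
    intro ζ hζ
    refine (hb ζ (closedBall_subset_ball hrr₀ (sphere_subset_closedBall hζ))).2 ?_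
    rintro rfl
    rw [mem_sphere_iff_norm, sub_zero, norm_zero] at hζ
    exact hr.ne hζ
  -- minimum on the circle
  have hcS : ContinuousOn (fun ζ : ℂ => ‖g (z₀ + ζ • v)‖) (sphere (0 : ℂ) r) :=
    (hg.continuousOn.comp (hline z₀).continuousOn fun ζ hζ =>
      hin ζ (sphere_subset_closedBall hζ)).norm
  have hSne : (sphere (0 : ℂ) r).Nonempty := NormedSpace.sphere_nonempty.2 hr.le
  obtain ⟨ζ₁, hζ₁, hmin⟩ := (isCompact_sphere (0 : ℂ) r).exists_isMinOn hSne hcS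
  set m : ℝ := ‖g (z₀ + ζ₁ • v)‖ with hmdef
  have hm : 0 < m := norm_pos_iff.2 (hS ζ₁ hζ₁)
  have hmle : ∀ ζ ∈ sphere (0 : ℂ) r, m ≤ ‖g (z₀ + ζ • v)‖ := fun ζ hζ => hmin hζ
  -- nearby lines
  have hjoint : ∀ ζ ∈ closedBall (0 : ℂ) r, Tendsto (fun w : E × ℂ => w.1 + w.2 • v)
      (𝓝 (z₀, ζ)) (𝓝 (z₀ + ζ • v)) := by
    intro ζ _
    have : Continuous fun w : E × ℂ => w.1 + w.2 • v := by fun_prop
    exact this.tendsto (z₀, ζ)
  have hev1 : ∀ᶠ z in 𝓝 z₀, ∀ ζ ∈ closedBall (0 : ℂ) r, z + ζ • v ∈ U := by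
    refine (isCompact_closedBall (0 : ℂ) r).eventually_forall_of_forall_eventually ?_
    intro ζ hζ
    exact (hjoint ζ hζ).eventually (hU.mem_nhds (hin ζ hζ))
  have hev2 : ∀ᶠ z in 𝓝 z₀, ∀ ζ ∈ sphere (0 : ℂ) r, m / 2 < ‖g (z + ζ • v)‖ := by
    refine (isCompact_sphere (0 : ℂ) r).eventually_forall_of_forall_eventually ?_
    intro ζ hζ
    have hζ' := sphere_subset_closedBall hζ
    have hc : ContinuousAt (fun z => ‖g z‖) (z₀ + ζ • v) :=
      ((hg.continuousOn.continuousAt (hU.mem_nhds (hin ζ hζ')))).norm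
    have h1 : ∀ᶠ z in 𝓝 (z₀ + ζ • v), m / 2 < ‖g z‖ := by
      refine hc.eventually (lt_mem_nhds ?_)
      have := hmle ζ hζ
      show m / 2 < ‖g (z₀ + ζ • v)‖
      linarith
    exact (hjoint ζ hζ').eventually h1
  have hev3 : ∀ᶠ z in 𝓝 z₀, ‖g z‖ < m / 2 := by
    have hc : ContinuousAt (fun z => ‖g z‖) z₀ :=
      ((hg.continuousOn.continuousAt (hU.mem_nhds hz₀))).norm
    refine hc.eventually (gt_mem_nhds ?_)
    show ‖g z₀‖ < m / 2
    rw [hg0, norm_zero]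
    linarith
  filter_upwards [hev1, hev2, hev3] with z h1 h2 h3
  by_contra hcon
  push Not at hcon
  have hnz2 : ∀ ζ ∈ closedBall (0 : ℂ) r, g (z + ζ • v) ≠ 0 := by
    intro ζ hζ
    refine hcon ζ ?_
    rw [mem_closedBall, dist_zero_right] at hζ
    linarith
  have hcc : ContinuousOn (fun ζ : ℂ => (g (z + ζ • v))⁻¹) (closedBall (0 : ℂ) r) :=
    (hg.continuousOn.comp (hline z).continuousOn fun ζ hζ => h1 ζ hζ).inv₀ hnz2
  have hdd : DifferentiableOn ℂ (fun ζ : ℂ => (g (z + ζ • v))⁻¹) (ball (0 : ℂ) r) := by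
    refine DifferentiableOn.fun_inv ?_ fun ζ hζ => hnz2 ζ (ball_subset_closedBall hζ)
    exact hg.comp (hdl z).differentiableOn fun ζ hζ => h1 ζ (ball_subset_closedBall hζ)
  have hdc : DiffContOnCl ℂ (fun ζ : ℂ => (g (z + ζ • v))⁻¹) (ball (0 : ℂ) r) := by
    refine ⟨hdd, ?_⟩
    rw [closure_ball (0 : ℂ) hr.ne']
    exact hcc
  have hmax := Complex.norm_le_of_forall_mem_frontier_norm_le (C := 2 / m)
    (isBounded_ball (x := (0 : ℂ)) (r := r)) hdc (by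
      intro ζ hζ
      rw [frontier_ball (0 : ℂ) hr.ne'] at hζ
      rw [norm_inv]
      have h4 := h2 ζ hζ
      rw [inv_le_comm₀ (by linarith) (by positivity), inv_div]
      exact h4.le) (z := 0) (by
      rw [closure_ball (0 : ℂ) hr.ne']
      exact mem_closedBall_self hr.le)
  simp only [zero_smul, add_zero, norm_inv] at hmax
  have h5 : g z ≠ 0 := by
    have := hnz2 0 (mem_closedBall_self hr.le)
    simpa using this
  have h6 : 0 < ‖g z‖ := norm_pos_iff.2 h5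
  rw [inv_le_comm₀ h6 (by positivity), inv_div] at hmax
  linarith

end Pool.Agent.H6.FB
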